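import Pool.Agent.helper14.F3.Defs

/-!
# D4: the integral of the remainder is a smooth function of the parameters

`Rf` is a finite sum of products (function of the parameters) times (function of the point).
-/

open Set Metric MeasureTheory
open scoped ContDiff Topology

namespace Kusner.Def3

namespace D4

/-- finite sums of products of a smooth function of the parameter and a continuous function of the
point -/
def Sep {Q V : Type} [NormedAddCommGroup Q] [NormedSpace ℝ Q] [NormedAddCommGroup V]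
    [NormedSpace ℝ V] (f : Q → E3 → V) : Prop :=
  ∃ (ι : Type) (_ : Fintype ι) (p : ι → Q → ℝ) (h : ι → E3 → V), (∀ j, ContDiff ℝ ∞ (p j)) ∧
    (∀ j, Continuous (h j)) ∧ ∀ q x, f q x = ∑ j, p j q • h j x

section
variable {Q V W U : Type} [NormedAddCommGroup Q] [NormedSpace ℝ Q] [NormedAddCommGroup V]
    [NormedSpace ℝ V] [NormedAddCommGroup W] [NormedSpace ℝ W] [NormedAddCommGroup U]
    [NormedSpace ℝ U]

theorem Sep.congr {f g : Q → E3 → V} (hf : Sep f) (h : ∀ q x, g q x = f q x) : Sep g := by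
  obtain ⟨ι, i1, p, k, h1, h2, h3⟩ := hf
  exact ⟨ι, i1, p, k, h1, h2, fun q x => (h q x).trans (h3 q x)⟩

theorem Sep.ofX {k : E3 → V} (hk : Continuous k) : Sep (fun (_ : Q) x => k x) :=
  ⟨Unit, inferInstance, fun _ _ => 1, fun _ => k, fun _ => contDiff_const, fun _ => hk,
    fun q x => by simp⟩

theorem Sep.ofQ {p : Q → ℝ} (hp : ContDiff ℝ ∞ p) : Sep (fun q (_ : E3) => p q) :=
  ⟨Unit, inferInstance, fun _ => p, fun _ _ => 1, fun _ => hp, fun _ => continuous_const,
    fun q x => by simp⟩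

theorem Sep.bilin (L : V →L[ℝ] W →L[ℝ] U) {f : Q → E3 → V} {g : Q → E3 → W} (hf : Sep f)
    (hg : Sep g) : Sep (fun q x => L (f q x) (g q x)) := by
  obtain ⟨ι, i1, p, k, h1, h2, h3⟩ := hf
  obtain ⟨κ, i2, p', k', h1', h2', h3'⟩ := hg
  refine ⟨ι × κ, inferInstance, fun j q => p j.1 q * p' j.2 q, fun j x => L (k j.1 x) (k' j.2 x),
    fun j => (h1 _).mul (h1' _), fun j => ?_, fun q x => ?_⟩
  · exact (L.continuous.comp (h2 _)).clm_apply (h2' _)
  · beta_reduce
    rw [h3, h3', map_sum L, ContinuousLinearMap.sum_apply, Fintype.sum_prod_type]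
    refine Finset.sum_congr rfl fun i _ => ?_
    rw [map_sum]
    refine Finset.sum_congr rfl fun j _ => ?_
    rw [map_smul, map_smul, ContinuousLinearMap.smul_apply, smul_smul, mul_comm]

theorem Sep.lin [FiniteDimensional ℝ V] (L : V →ₗ[ℝ] W) {f : Q → E3 → V} (hf : Sep f) :
    Sep (fun q x => L (f q x)) := by
  obtain ⟨ι, i1, p, k, h1, h2, h3⟩ := hf
  refine ⟨ι, i1, p, fun j x => L (k j x), h1, fun j => ?_, fun q x => ?_⟩
  · exact L.continuous_of_finiteDimensional.comp (h2 j)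
  · beta_reduce
    rw [h3, map_sum]
    refine Finset.sum_congr rfl fun i _ => ?_
    rw [map_smul]

theorem Sep.add {f g : Q → E3 → V} (hf : Sep f) (hg : Sep g) :
    Sep (fun q x => f q x + g q x) := by
  obtain ⟨ι, i1, p, k, h1, h2, h3⟩ := hf
  obtain ⟨κ, i2, p', k', h1', h2', h3'⟩ := hg
  refine ⟨ι ⊕ κ, inferInstance, Sum.elim p p', Sum.elim k k', ?_, ?_, fun q x => ?_⟩
  · rintro (j | j)
    · exact h1 j
    · exact h1' j
  · rintro (j | j)
    · exact h2 j
    · exact h2' j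
  · beta_reduce
    rw [Fintype.sum_sum_type, h3, h3']
    rfl

theorem Sep.smul {f : Q → E3 → ℝ} {g : Q → E3 → V} (hf : Sep f) (hg : Sep g) :
    Sep (fun q x => f q x • g q x) :=
  (Sep.bilin (ContinuousLinearMap.lsmul ℝ ℝ) hf hg).congr fun q x => rfl

theorem Sep.mul {f g : Q → E3 → ℝ} (hf : Sep f) (hg : Sep g) :
    Sep (fun q x => f q x * g q x) := (hf.smul hg).congr fun q x => rfl

theorem Sep.const (c : V) : Sep (fun (_ : Q) (_ : E3) => c) := Sep.ofX continuous_const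

theorem Sep.neg {f : Q → E3 → V} (hf : Sep f) : Sep (fun q x => - f q x) :=
  ((Sep.const (-1 : ℝ)).smul hf).congr fun q x => by simp

theorem Sep.sub {f g : Q → E3 → V} (hf : Sep f) (hg : Sep g) :
    Sep (fun q x => f q x - g q x) :=
  (hf.add hg.neg).congr fun q x => by rw [sub_eq_add_neg]

theorem Sep.sum {ι : Type} (s : Finset ι) {f : ι → Q → E3 → V} (h : ∀ i ∈ s, Sep (f i)) :
    Sep (fun q x => ∑ i ∈ s, f i q x) := by
  classical
  induction s using Finset.induction_on with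
  | empty => exact (Sep.const (0 : V)).congr fun q x => by simp
  | insert a s ha ih =>
    refine ((h a (Finset.mem_insert_self a s)).add
      (ih fun i hi => h i (Finset.mem_insert_of_mem hi))).congr fun q x => ?_
    rw [Finset.sum_insert ha]

/-- the integral over a bounded set is smooth -/
theorem Sep.contDiff_int {f : Q → E3 → ℝ} (hf : Sep f) {Ω : Set E3}
    (hb : Bornology.IsBounded Ω) : ContDiff ℝ ∞ (fun q => ∫ x in Ω, f q x) := by
  obtain ⟨ι, i1, p, k, h1, h2, h3⟩ := hf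
  have hint : ∀ j, IntegrableOn (k j) Ω := by
    intro j
    obtain ⟨R, hR⟩ := hb.subset_closedBall 0
    exact ((h2 j).continuousOn.integrableOn_compact (isCompact_closedBall 0 R)).mono_set hR
  have e : (fun q => ∫ x in Ω, f q x) = fun q => ∑ j, p j q * ∫ x in Ω, k j x := by
    funext q
    simp only [h3, smul_eq_mul]
    rw [integral_finsetSum Finset.univ (fun i _ => (hint i).const_mul (p i q))]
    refine Finset.sum_congr rfl fun j _ => ?_
    rw [integral_const_mul]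
  rw [e]
  exact ContDiff.sum fun j _ => (h1 j).mul contDiff_const

theorem Sep.continuous {f : Q → E3 → V} (hf : Sep f) (q : Q) : Continuous (f q) := by
  obtain ⟨ι, i1, p, k, h1, h2, h3⟩ := hf
  have e : f q = fun x => ∑ j, p j q • k j x := by funext x; exact h3 q x
  rw [e]
  exact continuous_finsetSum _ fun j _ => (h2 j).const_smul _

/-- the trace as a linear map -/
noncomputable def trL : (E3 →L[ℝ] E3) →ₗ[ℝ] ℝ :=
  (LinearMap.trace ℝ E3).comp (ContinuousLinearMap.coeLM ℝ)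

theorem Sep.tr {f : Q → E3 → (E3 →L[ℝ] E3)} (hf : Sep f) : Sep (fun q x => Def3.tr (f q x)) :=
  (Sep.lin trL hf).congr fun q x => rfl

theorem Sep.comp {f g : Q → E3 → (E3 →L[ℝ] E3)} (hf : Sep f) (hg : Sep g) :
    Sep (fun q x => (f q x).comp (g q x)) :=
  (Sep.bilin (ContinuousLinearMap.compL ℝ E3 E3 E3) hf hg).congr fun q x => rfl

/-- the entries as linear maps -/
noncomputable def entL (i j : Fin 3) : (E3 →L[ℝ] E3) →ₗ[ℝ] ℝ where
  toFun T := LinearMap.toMatrix (EuclideanSpace.basisFun (Fin 3) ℝ).toBasis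
    (EuclideanSpace.basisFun (Fin 3) ℝ).toBasis T.toLinearMap i j
  map_add' S T := by
    rw [ContinuousLinearMap.toLinearMap_add, map_add]; rfl
  map_smul' c T := by
    rw [ContinuousLinearMap.toLinearMap_smul, map_smul]; rfl

theorem Sep.dt {f : Q → E3 → (E3 →L[ℝ] E3)} (hf : Sep f) : Sep (fun q x => Def3.dt (f q x)) := by
  have he : ∀ i j, Sep (fun q x => entL i j (f q x)) := fun i j => Sep.lin (entL i j) hf
  have h := (((((he 0 0).mul (he 1 1)).mul (he 2 2)).sub (((he 0 0).mul (he 1 2)).mul (he 2 1))).sub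
    (((he 0 1).mul (he 1 0)).mul (he 2 2)))
  have h' := ((h.add (((he 0 1).mul (he 1 2)).mul (he 2 0))).add
    (((he 0 2).mul (he 1 0)).mul (he 2 1))).sub (((he 0 2).mul (he 1 1)).mul (he 2 0))
  refine h'.congr fun q x => ?_
  show LinearMap.det (f q x).toLinearMap = _
  rw [← LinearMap.det_toMatrix (EuclideanSpace.basisFun (Fin 3) ℝ).toBasis, Matrix.det_fin_three]
  rfl

end

theorem sep_Rf {k : ℕ} {A B : E3 → E3 →L[ℝ] E3} {C : Fin k → E3 → E3 →L[ℝ] E3}
    (hA : Continuous A) (hB : Continuous B) (hC : ∀ j, Continuous (C j)) :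
    Sep (fun (q : ℝ × (Fin k → ℝ)) x => Rf q.1 q.2 (A x) (B x) (fun j => C j x)) := by
  have sA : Sep (fun (_ : ℝ × (Fin k → ℝ)) x => A x) := Sep.ofX hA
  have sB : Sep (fun (_ : ℝ × (Fin k → ℝ)) x => B x) := Sep.ofX hB
  have sθ : Sep (fun (q : ℝ × (Fin k → ℝ)) (_ : E3) => q.1) := Sep.ofQ contDiff_fst
  have sσ : ∀ j, Sep (fun (q : ℝ × (Fin k → ℝ)) (_ : E3) => q.2 j) := fun j =>
    Sep.ofQ ((contDiff_apply ℝ ℝ j).comp contDiff_snd)
  have sK : Sep (fun (q : ℝ × (Fin k → ℝ)) x => Kf q.2 (fun j => C j x)) :=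
    (Sep.sum Finset.univ fun j _ => (sσ j).smul (Sep.ofX (hC j))).congr fun q x => rfl
  have sc : ∀ c : ℝ, Sep (fun (_ : ℝ × (Fin k → ℝ)) (_ : E3) => c) := fun c => Sep.const c
  have sθ2 : Sep (fun (q : ℝ × (Fin k → ℝ)) (_ : E3) => q.1 ^ 2) :=
    (sθ.mul sθ).congr fun q x => by ring
  have sθ3 : Sep (fun (q : ℝ × (Fin k → ℝ)) (_ : E3) => q.1 ^ 3) :=
    (sθ2.mul sθ).congr fun q x => by ring
  have sN : Sep (fun (q : ℝ × (Fin k → ℝ)) x => Nf q.1 q.2 (A x) (B x) (fun j => C j x)) := by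
    have h := (sA.add (((sc (1/2)).mul sθ).smul sB)).add (sθ2.smul sK)
    refine h.congr fun q x => ?_
    unfold Nf
    rw [show (1:ℝ)/2 * q.1 = q.1 / 2 by ring]
  have s1 := ((sc (1/2)).mul sB.tr).add (sθ.mul sK.tr)
  have s2 := sθ.mul (s1.mul s1)
  have s3 := (((sc (1/4)).mul (sB.comp sB).tr).add ((sc 2).mul (sA.comp sK).tr))
  have s4 := (((s2.sub (sA.comp sB).tr).sub (sθ.mul s3)).sub (sθ2.mul (sB.comp sK).tr)).sub
    (sθ3.mul (sK.comp sK).tr)
  have s5 := (sK.tr.add ((sc (1/2)).mul s4)).add sN.dt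
  refine s5.congr fun q x => ?_
  unfold Rf
  ring

end D4

/-- D4 -/
theorem contDiff_int {k : ℕ} {Ω : Set E3} (hb : Bornology.IsBounded Ω) (hm : MeasurableSet Ω)
    {A B : E3 → E3 →L[ℝ] E3} {C : Fin k → E3 → E3 →L[ℝ] E3} (hA : ContDiff ℝ ∞ A)
    (hB : ContDiff ℝ ∞ B) (hC : ∀ j, ContDiff ℝ ∞ (C j)) :
    ContDiff ℝ ∞ (fun q : ℝ × (Fin k → ℝ) =>
      ∫ x in Ω, Rf q.1 q.2 (A x) (B x) (fun j => C j x)) :=
  (D4.sep_Rf hA.continuous hB.continuous fun j => (hC j).continuous).contDiff_int hb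

theorem continuous_Rf {k : ℕ} (θ : ℝ) (σ : Fin k → ℝ) {A B : E3 → E3 →L[ℝ] E3}
    {C : Fin k → E3 → E3 →L[ℝ] E3} (hA : Continuous A) (hB : Continuous B)
    (hC : ∀ j, Continuous (C j)) :
    Continuous (fun x => Rf θ σ (A x) (B x) (fun j => C j x)) :=
  (D4.sep_Rf hA hB hC).continuous (θ, σ)

end Kusner.Def3
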